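import Pool.Agent.V5helper97.TraceIneqE

/-!
# The multivariate trace inequality holds with the constant one

For positive `A_1, …, A_n` put `Z_j = A_j²`, `φ_t(Z) = Z (Z + t²)⁻¹`. For every `t > 0` one has the
operator inequality `t² (∑ Z_j + t²)⁻¹ ≤ (1 - ∑ φ_t(Z_j))² + ∑ φ_t(Z_j) (1 - φ_t(Z_j))`, the
difference of the two sides being an explicit sum of squares. Taking traces and integrating over `t`
(`Tr √Z = (2/π) ∫ Tr φ_t(Z) dt`) gives
`∑ Tr A_j - Tr √(∑ A_j²) ≤ ∑_{j<k} ∑_{x,y} 2 a_x b_y / (a_x + b_y) |⟨x|y⟩|²` with the eigenvectors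
`x` of `A_j` and `y` of `A_k`, and every term of the right-hand side is at most
`Tr (A_j + A_k) - ‖A_j - A_k‖₁`. For `n` vectors forming a regular simplex the quotient of the two
sides tends to one as `n` tends to infinity, so no smaller constant works for all `n`.
-/

open Matrix Finset
open scoped MatrixOrder ComplexOrder

namespace Pool.Agent.Results.MP_ebd556_mp.ConstantOne

/-- The trace norm `‖X‖₁ = Tr |X| = Tr √(X* X)`. -/
noncomputable def traceNorm {d : ℕ} (X : Matrix (Fin d) (Fin d) ℂ) : ℝ :=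
  (CFC.sqrt (star X * X)).trace.re

/-- `L(A_1, …, A_n) = Tr √(∑ A_j²) - ∑ Tr A_j`. -/
noncomputable def L {n d : ℕ} (A : Fin n → Matrix (Fin d) (Fin d) ℂ) : ℝ :=
  (CFC.sqrt (∑ j, A j ^ 2)).trace.re - ∑ j, (A j).trace.re

/-- `R(A_1, …, A_n) = ∑_{j<k} (‖A_j - A_k‖₁ - Tr (A_j + A_k))`. -/
noncomputable def R {n d : ℕ} (A : Fin n → Matrix (Fin d) (Fin d) ℂ) : ℝ :=
  ∑ p ∈ Finset.univ.filter (fun p : Fin n × Fin n => p.1 < p.2),
    (traceNorm (A p.1 - A p.2) - (A p.1 + A p.2).trace.re)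

/-- The inequality `L ≥ c R` holds with `c = 1` for all numbers `n` of operators, all dimensions `d`
and all positive operators, and no constant `c < 1` has this property for all `n`. -/
theorem result :
    (∀ (n d : ℕ) (A : Fin n → Matrix (Fin d) (Fin d) ℂ), (∀ j, (A j).PosSemidef) →
      1 * R A ≤ L A) ∧
    (∀ c : ℝ, c < 1 → ∃ (n d : ℕ) (A : Fin n → Matrix (Fin d) (Fin d) ℂ),
      (∀ j, (A j).PosSemidef) ∧ L A < c * R A) := by
  refine ⟨fun n d A hA => ?_, fun c hc => ?_⟩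
  · rw [one_mul]
    exact Pool.Agent.V5helper97.TraceIneqD.trace_ineq A hA
  · exact Pool.Agent.V5helper97.TraceIneqE.sharp c hc

end Pool.Agent.Results.MP_ebd556_mp.ConstantOne
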